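import Pool.Agent.J6H17.RF.Stm

/-!
Project RF, module RF-CONS: the theory of a proof system is consistent, and it proves the values of
the proof system in three lines.
-/

set_option autoImplicit false

namespace Pool.Agent.J6H86.RF

open Pool.Agent.NPC Pool.Agent.H628R3.RO Pool.Agent.J6H17.RF

theorem main (h : S_LOG) : S_CONS := by
  intro B μ g hB
  refine ⟨fun hg hcon hbot => ?_, fun w e x z hw => ?_⟩
  · refine hcon (h.2.2.2 B (TG B μ g) Fm.bot (fun ψ hψ => ?_) hbot)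
    rcases hψ with hψ | ⟨w, e, x, z, hw, rfl⟩
    · exact ⟨[], trivial, Or.inl hψ⟩
    · obtain ⟨π, hπ⟩ := hg w e x z hw
      have h1 : IsProof B [(at3 μ e x z).imp (axm μ w e x z)] :=
        ⟨trivial, Or.inl (hB _ (LogAx.k _ _))⟩
      exact ⟨_, h.2.1 B (at3 μ e x z) (axm μ w e x z) [] π h1 hπ⟩
  · have hax : axm μ w e x z ∈ TG B μ g := Or.inr ⟨w, e, x, z, hw, rfl⟩
    have hrefl : Fm.eq (.var (codeN w)) (.var (codeN w)) ∈ TG B μ g :=
      Or.inl (hB _ (LogAx.refl _))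
    refine ⟨⟨⟨trivial, Or.inl hrefl⟩, Or.inl hax⟩, Or.inr (Or.inl ?_)⟩
    exact ⟨Fm.eq (.var (codeN w)) (.var (codeN w)), List.mem_cons_of_mem _ (List.mem_singleton.2 rfl),
      List.mem_cons_self⟩

end Pool.Agent.J6H86.RF
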